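import Pool.Agent.Helper53.WR.Defs

/-! WR-C2 (captain helper53): coverage by a world. -/

set_option autoImplicit false

namespace Pool.Agent.Helper71.WR

open Finset
open Pool.Agent.Helper3.Thin
open Pool.Agent.Helper53.WR

lemma und_dig {q : ℕ} [Fact q.Prime] {a : ℕ} (ha : a < q ^ 4) :
    und (dig q a) (dig q (a / q ^ 2)) = a := by
  have hq : 0 < q := (Fact.out : q.Prime).pos
  have h1 : dig q (und (dig q a) (dig q (a / q ^ 2))) = dig q a := dig_und _ _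
  have h2 : dig q (und (dig q a) (dig q (a / q ^ 2)) / q ^ 2) = dig q (a / q ^ 2) :=
    dig_und_high _ _
  have h3 := und_lt (dig q a) (dig q (a / q ^ 2))
  rw [dig_eq_iff] at h1 h2
  have e : q ^ 4 = q ^ 2 * q ^ 2 := by ring
  rw [e] at ha h3
  have h4 : a / q ^ 2 < q ^ 2 := Nat.div_lt_of_lt_mul ha
  have h5 : und (dig q a) (dig q (a / q ^ 2)) / q ^ 2 < q ^ 2 := Nat.div_lt_of_lt_mul h3
  rw [Nat.mod_eq_of_lt h4, Nat.mod_eq_of_lt h5] at h2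
  rw [← Nat.mod_add_div (und (dig q a) (dig q (a / q ^ 2))) (q ^ 2), h1, h2, Nat.mod_add_div]

/-- WR-C2 (coverage by a world). -/
theorem world_cover {q : ℕ} [Fact q.Prime] {Γ : Finset (ZMod q × ZMod q)} (hΓ : GoodSet Γ)
    (T : Finset ℕ) (S : ℕ) (τ : ZMod q × ZMod q → ZMod q × ZMod q)
    (σ : (ZMod q × ZMod q) × (ZMod q × ZMod q) → ℕ) (hσ : ∀ p, σ p < S) (n : ℕ)
    (hN : 4 + 4 * S ≤ n / q ^ 4)
    (hT : ∀ m : ℕ, n / q ^ 4 ≤ m + 4 + 4 * S → m ≤ n / q ^ 4 → ∃ t ∈ T, ∃ t' ∈ T, t + t' = m) :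
    ∃ a ∈ World Γ T S τ σ, ∃ b ∈ World Γ T S τ σ, a + b = n := by
  have hq : 0 < q := (Fact.out : q.Prime).pos
  have hq4 : 0 < q ^ 4 := by positivity
  have hmod := Nat.mod_lt n hq4
  have hn : n % q ^ 4 + q ^ 4 * (n / q ^ 4) = n := Nat.mod_add_div n _
  generalize n % q ^ 4 = r at hn hmod
  generalize n / q ^ 4 = N at hn hN hT
  obtain ⟨a, b, ε, ε', ⟨ha, hau, haz⟩, ⟨hb, hbu, hbz⟩, hab⟩ :=
    cover_one hΓ τ (r + 4 * q ^ 4) (by omega) (by omega)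
  have key : ∀ c : ℕ, c < q ^ 4 → ∀ (δ : Lab) (t : ℕ),
      elt S τ σ (dig q c, dig q (c / q ^ 2) - τ (dig q c)) δ t
        = c + off q δ + q ^ 4 * (S + σ (dig q c, dig q (c / q ^ 2) - τ (dig q c)) + t) := by
    intro c hc δ t
    unfold elt
    rw [sub_add_cancel, und_dig hc]
  have mem : ∀ c : ℕ, dig q c ∈ Γ → dig q (c / q ^ 2) - τ (dig q c) ∈ Γ → ∀ (δ : Lab), ∀ t ∈ T,
      elt S τ σ (dig q c, dig q (c / q ^ 2) - τ (dig q c)) δ t ∈ World Γ T S τ σ := by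
    intro c h1 h2 δ t ht
    unfold World Ind
    refine mem_image.2 ⟨(((dig q c, dig q (c / q ^ 2) - τ (dig q c)), δ), t), ?_, rfl⟩
    simp only [mem_product, mem_univ, and_true]
    exact ⟨⟨h1, h2⟩, ht⟩
  set s := σ (dig q a, dig q (a / q ^ 2) - τ (dig q a)) with hs
  set s' := σ (dig q b, dig q (b / q ^ 2) - τ (dig q b)) with hs'
  have h1 : s < S := hσ _
  have h2 : s' < S := hσ _
  obtain ⟨m, hm⟩ : ∃ m, N = m + 4 + 2 * S + s + s' :=
    ⟨N - (4 + 2 * S + s + s'), by omega⟩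
  obtain ⟨t, ht, t', ht', htt⟩ := hT m (by omega) (by omega)
  refine ⟨_, mem a hau haz ε t ht, _, mem b hbu hbz ε' t' ht', ?_⟩
  rw [key a ha, key b hb, ← hs, ← hs']
  rw [hm] at hn
  have e1 : q ^ 4 * (S + s + t) + q ^ 4 * (S + s' + t') = q ^ 4 * (2 * S + s + s' + m) := by
    rw [← htt]; ring
  have e2 : q ^ 4 * (m + 4 + 2 * S + s + s') = q ^ 4 * (2 * S + s + s' + m) + 4 * q ^ 4 := by
    ring
  omega

end Pool.Agent.Helper71.WR
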